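import Pool.Agent.H2VL.Fin2
import Pool.Agent.H1VL.AnaS
import Pool.Agent.H1VL.GoodS
import Pool.Agent.H1VL.Gfun
import Pool.Agent.H1VL.Wdf

/-!
Closed chains of vortex arcs at the singular points of Navier-Stokes flows.

`V` is `ℝ³` with the maximum norm (the balls are cubes), `len` is the Euclidean length, `vort v` is
the curl of `v` and `om v` its length. A point `a` is singular at the time `T` (`Sing T u a`) if `u`
is unbounded in every neighbourhood of `(T, a)`.

At a singular point the vortex lines nearly close up: at times `t` arbitrarily close to `T`, in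
arbitrarily small neighbourhoods of `a` and inside of the set where the vorticity is larger than a
given threshold `m(t, y)` in the Kato class (bounded functions, functions bounded in `L^q` with
`q > 3 / 2`, `1 / (|y - a|² log² |y - a|)`, ...) there is a closed chain of finitely many arcs of
vortex lines for which the total length of the gaps between the consecutive arcs is less than `ε`
times the total length of the arcs. If `θ` is an orientation, that is a function with the values
`1` and `-1` which is continuous where the vorticity is not zero, then there is such a chain for the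
arcs of the field `θ ω`, too: the arcs of a chain may be followed in the direction of `θ ω` only.

By duality (a Lyapunov function for the vortex lines) there is no singular point if there are a
`κ > 0` and, at each time `t` near `T`, a function `g` with Lipschitz constant one with
`∇g · θ ω ≥ κ |ω|` at the points of a neighbourhood of `a` where `|ω| > m`. For linear functions
`g` and `θ = 1` this is the condition that the vorticity directions stay in an open half-space,
away from its boundary; so any modulus of continuity of the vorticity direction suffices.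
-/

open MeasureTheory Set
open H459R3.NS Pool.Agent.W268.NS
open Pool.Agent.Q67.VD (om)
open Pool.Agent.Q85.CL (Sing Blow DSl WSl)
open Pool.Agent.Q85.VL (Kato Orient Chained)

set_option autoImplicit false

namespace Pool.Agent.Results.MP_6bf1e5_an.VortexChains

/-- For all `0 ≤ T₀ < T`, `ε > 0`, `R > 0` and all continuous thresholds `m(t) ≥ 0` in the Kato
class, uniformly in `t`, there is a time `t` in `(T₀, T)` such that for every orientation `θ` of the
vorticity `ω = curl u(t)` in the cube `‖y - a‖ ≤ R` there is a closed chain of arcs of the field
`θ ω` in the set `{y | ‖y - a‖ ≤ R, m(t, y) < |ω(y)|}` with the total length of the gaps less than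
`ε` times the total length of the arcs. -/
def ChainsAt (T : ℝ) (u : ℝ → V → V) (a : V) : Prop :=
  ∀ (T₀ ε R : ℝ) (m : ℝ → V → ℝ), 0 ≤ T₀ → T₀ < T → 0 < ε → 0 < R →
    (∀ t ∈ Ioo T₀ T, Continuous (m t)) → (∀ t ∈ Ioo T₀ T, ∀ y, 0 ≤ m t y) → Kato T₀ T a R m →
    ∃ t ∈ Ioo T₀ T, ∀ θ : V → ℝ, Orient θ a R (vort (u t)) →
      Chained (fun y => θ y • vort (u t) y) {y | ‖y - a‖ ≤ R ∧ m t y < om (u t) y} ε

/-- Closed chains of vortex arcs at the singular points, for smooth solutions of the Navier-Stokes
equations without force, with viscosity `ν > 0`,

(a) in `(0, T) × Ω`, `Ω` open, with finite energy, finite dissipation and integrable pressure;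

(b) in `(0, T) × ℝ³` with bounded energy, finite dissipation and locally integrable pressure;

(c) periodic, on `[0, T) × ℝ³`.

In the cases (b) and (c) there is a singular point if `u` is unbounded near the time `T`. -/
theorem result (ν T : ℝ) (u : ℝ → V → V) (p : ℝ → V → ℝ) (hν : 0 < ν) :
    (∀ (E : ℝ) (Ω : Set V), DSl ν T E Ω u p → ∀ a ∈ Ω, Sing T u a → ChainsAt T u a) ∧
    (∀ E : ℝ, WSl ν T E u p → (Blow T u → ∃ a, Sing T u a) ∧ ∀ a, Sing T u a → ChainsAt T u a) ∧
    (IsSol ν T u p → (Blow T u → ∃ a, Sing T u a) ∧ ∀ a, Sing T u a → ChainsAt T u a) :=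
  ⟨fun _ _ h _ ha hs =>
      H2VL.chainsD H1VL.goodS H1VL.anaS H1VL.stmWd H1VL.stmG hν h ha hs,
    fun _ h => H2VL.chainsW H1VL.goodS H1VL.anaS H1VL.stmWd H1VL.stmG hν h,
    fun h => H2VL.chainsP H1VL.goodS H1VL.anaS H1VL.stmWd H1VL.stmG hν h⟩

end Pool.Agent.Results.MP_6bf1e5_an.VortexChains
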